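import Pool.Agent.Y714.KF.Stm

set_option autoImplicit false
set_option linter.unusedSectionVars false

/-! DESC: descent to a reduced pair. -/

namespace Pool.Agent.Y604.KF

open NumberField FractionalIdeal Module Finset Pool.Agent.Y714.KF
open scoped nonZeroDivisors

section

variable (K : Type) [Field K] [NumberField K]

/-- a neighbour is a rational transform with determinant `± p` -/
theorem nb_gl {p : ℕ} (o : Option (Fin p)) (P : K × K) : ∃ a b c d : ℚ,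
    (a * d - b * c = p ∨ a * d - b * c = -p) ∧
    nb p o P = ((a : K) * P.1 + (b : K) * P.2, (c : K) * P.1 + (d : K) * P.2) := by
  cases o with
  | none =>
    refine ⟨0, 1, p, 0, Or.inr (by ring), ?_⟩
    simp [nb]
  | some r =>
    refine ⟨1, (r : ℕ), 0, p, Or.inl (by ring), ?_⟩
    simp [nb]

/-- one step of the descent: if `P` is not reduced then some rational transform has at most half
the height -/
theorem step (hodd : Odd (finrank ℚ K)) (hn : 3 ≤ finrank ℚ K) {P : K × K} (hP : Nd P)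
    (hr : ¬ Red P) : ∃ Q : K × K, Nd Q ∧ (∃ a b c d : ℚ, a * d - b * c ≠ 0 ∧
      Q = ((a : K) * P.1 + (b : K) * P.2, (c : K) * P.1 + (d : K) * P.2)) ∧
      2 * (pm (vec Q) * ((nm (ct P) : ℚ) : ℝ) ^ 2) ≤ pm (vec P) * ((nm (ct Q) : ℚ) : ℝ) ^ 2 := by
  unfold Red at hr
  push Not at hr
  obtain ⟨p, hp, hpP⟩ := hr
  obtain ⟨o, ho⟩ := exists_nb hp hpP
  obtain ⟨a, b, c, d, hdet, hQ⟩ := nb_gl K o P
  have hpq : (p : ℚ) ≠ 0 := by exact_mod_cast hp.ne_zero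
  have hpK : (p : K) ≠ 0 := by exact_mod_cast hp.ne_zero
  have hdet0 : a * d - b * c ≠ 0 := by
    rcases hdet with h | h
    · rw [h]; exact hpq
    · rw [h]; exact neg_ne_zero.2 hpq
  have hP1 : P.1 ≠ 0 := (hP.ind (by omega)).fst
  have hctP : ct P ≠ 0 := ct_ne hP1
  refine ⟨nb p o P, by rw [hQ]; exact hP.gl hdet0, ⟨a, b, c, d, hdet0, hQ⟩, ?_⟩
  -- the maximum of the products
  have h1 : pm (vec (nb p o P)) = (p : ℝ) ^ finrank ℚ K * pm (vec P) := by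
    rw [hQ, pm_vec_gl]
    congr 2
    have hpp : (0 : ℝ) ≤ p := Nat.cast_nonneg p
    rcases hdet with h | h
    · have h' : ((a : ℝ) * d - b * c) = p := by exact_mod_cast h
      rw [h', abs_of_nonneg hpp]
    · have h' : ((a : ℝ) * d - b * c) = -p := by exact_mod_cast h
      rw [h', abs_neg, abs_of_nonneg hpp]
  -- the contents
  have hle1 : sp (p : K) * ct P ≤ ct (nb p o P) := by
    rw [ct_nb, ← sup_eq_add]; exact le_sup_left
  have hle2 : ct (nb p o P) ≤ ct P := by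
    rw [ct_nb, ← sup_eq_add]
    refine sup_le ?_ ?_
    · calc sp (p : K) * ct P ≤ 1 * ct P := by gcongr; exact sp_natCast_le_one p
        _ = ct P := one_mul _
    · exact sp_le.2 (Lt_mem le_rfl (nb_not_mem hp (hP.ind (by omega)) o).1)
  obtain ⟨m, -, hm⟩ := exists_pow hp hctP hle1 hle2
  have hnm : 0 < nm (ct P) := nm_pos hctP
  have hp1 : (1 : ℚ) < p := by exact_mod_cast hp.one_lt
  have h2m : finrank ℚ K + 1 ≤ 2 * m := by
    rw [hm, mul_pow, ← pow_mul] at ho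
    have h3 : (p : ℚ) ^ finrank ℚ K ≤ (p : ℚ) ^ (m * 2) := by
      by_contra hcon
      push Not at hcon
      have : (p : ℚ) ^ (m * 2) * nm (ct P) ^ 2 < (p : ℚ) ^ finrank ℚ K * nm (ct P) ^ 2 := by
        gcongr
      exact absurd ho (not_le.2 this)
    have h4 : finrank ℚ K ≤ m * 2 := (pow_le_pow_iff_right₀ hp1).1 h3
    obtain ⟨k, hk⟩ := hodd
    omega
  have h5 : ((nm (ct (nb p o P)) : ℚ) : ℝ) = (p : ℝ) ^ m * ((nm (ct P) : ℚ) : ℝ) := by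
    rw [hm]; push_cast; rfl
  rw [h1, h5]
  have h6 : (2 : ℝ) * (p : ℝ) ^ finrank ℚ K ≤ ((p : ℝ) ^ m) ^ 2 := by
    have hp2 : (2 : ℝ) ≤ p := by exact_mod_cast hp.two_le
    have hp1' : (1 : ℝ) ≤ p := by linarith
    calc (2 : ℝ) * (p : ℝ) ^ finrank ℚ K ≤ p * (p : ℝ) ^ finrank ℚ K := by gcongr
      _ = (p : ℝ) ^ (finrank ℚ K + 1) := by rw [pow_succ]; ring
      _ ≤ (p : ℝ) ^ (2 * m) := pow_le_pow_right₀ hp1' h2m
      _ = ((p : ℝ) ^ m) ^ 2 := by rw [← pow_mul, mul_comm]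
  have h7 : (0 : ℝ) ≤ pm (vec P) * ((nm (ct P) : ℚ) : ℝ) ^ 2 :=
    mul_nonneg (pm_nonneg _) (sq_nonneg _)
  calc 2 * ((p : ℝ) ^ finrank ℚ K * pm (vec P) * ((nm (ct P) : ℚ) : ℝ) ^ 2) =
        (2 * (p : ℝ) ^ finrank ℚ K) * (pm (vec P) * ((nm (ct P) : ℚ) : ℝ) ^ 2) := by ring
    _ ≤ ((p : ℝ) ^ m) ^ 2 * (pm (vec P) * ((nm (ct P) : ℚ) : ℝ) ^ 2) := by gcongr
    _ = pm (vec P) * ((p : ℝ) ^ m * ((nm (ct P) : ℚ) : ℝ)) ^ 2 := by ring

/-- the descent with a counter -/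
theorem desc_aux (hodd : Odd (finrank ℚ K)) (hn : 3 ≤ finrank ℚ K) {c : ℝ} (hc : 0 < c)
    (hcb : ∀ P : K × K, Nd P → c * ((nm (ct P) : ℚ) : ℝ) ^ 2 ≤ pm (vec P)) (N : ℕ) :
    ∀ P : K × K, Nd P → pm (vec P) < 2 ^ N * (c * ((nm (ct P) : ℚ) : ℝ) ^ 2) → ∃ Q : K × K,
    Red Q ∧ (∃ a b c d : ℚ, a * d - b * c ≠ 0 ∧
      Q = ((a : K) * P.1 + (b : K) * P.2, (c : K) * P.1 + (d : K) * P.2)) ∧
    pm (vec Q) * ((nm (ct P) : ℚ) : ℝ) ^ 2 ≤ pm (vec P) * ((nm (ct Q) : ℚ) : ℝ) ^ 2 := by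
  have hpos : ∀ P : K × K, Nd P → (0 : ℝ) < ((nm (ct P) : ℚ) : ℝ) := fun P hP => by
    exact_mod_cast nm_pos (ct_ne (hP.ind (by omega)).fst)
  induction N with
  | zero =>
    intro P hP h
    rw [pow_zero, one_mul] at h
    exact absurd (hcb P hP) (not_le.2 h)
  | succ N ih =>
    intro P hP h
    by_cases hr : Red P
    · exact ⟨P, hr, ⟨1, 0, 0, 1, by norm_num, by simp⟩, le_rfl⟩
    · obtain ⟨Q, hQ, ⟨a, b, c', d, hdet, hQP⟩, hle⟩ := step K hodd hn hP hr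
      have hP0 := hpos P hP
      have hQ0 := hpos Q hQ
      have hlt : pm (vec Q) < 2 ^ N * (c * ((nm (ct Q) : ℚ) : ℝ) ^ 2) := by
        have h1 : 2 * (pm (vec Q) * ((nm (ct P) : ℚ) : ℝ) ^ 2) <
            (2 ^ (N + 1) * (c * ((nm (ct P) : ℚ) : ℝ) ^ 2)) * ((nm (ct Q) : ℚ) : ℝ) ^ 2 :=
          lt_of_le_of_lt hle (by gcongr)
        have h2 : (pm (vec Q)) * (2 * ((nm (ct P) : ℚ) : ℝ) ^ 2) <
            (2 ^ N * (c * ((nm (ct Q) : ℚ) : ℝ) ^ 2)) * (2 * ((nm (ct P) : ℚ) : ℝ) ^ 2) := by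
          calc (pm (vec Q)) * (2 * ((nm (ct P) : ℚ) : ℝ) ^ 2) =
                2 * (pm (vec Q) * ((nm (ct P) : ℚ) : ℝ) ^ 2) := by ring
            _ < (2 ^ (N + 1) * (c * ((nm (ct P) : ℚ) : ℝ) ^ 2)) *
                ((nm (ct Q) : ℚ) : ℝ) ^ 2 := h1
            _ = _ := by rw [pow_succ]; ring
        exact lt_of_mul_lt_mul_right h2 (by positivity)
      obtain ⟨Q', hQ', ⟨a', b', c'', d', hdet', hQ'Q⟩, hle'⟩ := ih Q hQ hlt
      refine ⟨Q', hQ', ⟨a' * a + b' * c', a' * b + b' * d, c'' * a + d' * c', c'' * b + d' * d,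
        ?_, ?_⟩, ?_⟩
      · have : (a' * a + b' * c') * (c'' * b + d' * d) - (a' * b + b' * d) * (c'' * a + d' * c') =
            (a' * d' - b' * c'') * (a * d - b * c') := by ring
        rw [this]
        exact mul_ne_zero hdet' hdet
      · rw [hQ'Q, hQP]
        ext
        · push_cast; ring
        · push_cast; ring
      · have hPP : (0 : ℝ) < ((nm (ct P) : ℚ) : ℝ) ^ 2 := by positivity
        have hQQ : (0 : ℝ) < ((nm (ct Q) : ℚ) : ℝ) ^ 2 := by positivity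
        have h0 : (0 : ℝ) ≤ pm (vec Q) * ((nm (ct P) : ℚ) : ℝ) ^ 2 :=
          mul_nonneg (pm_nonneg _) hPP.le
        have h3 : pm (vec Q) * ((nm (ct P) : ℚ) : ℝ) ^ 2 ≤
            pm (vec P) * ((nm (ct Q) : ℚ) : ℝ) ^ 2 := by linarith
        have h4 : (pm (vec Q') * ((nm (ct P) : ℚ) : ℝ) ^ 2) * ((nm (ct Q) : ℚ) : ℝ) ^ 2 ≤
            (pm (vec P) * ((nm (ct Q') : ℚ) : ℝ) ^ 2) * ((nm (ct Q) : ℚ) : ℝ) ^ 2 := by
          calc (pm (vec Q') * ((nm (ct P) : ℚ) : ℝ) ^ 2) * ((nm (ct Q) : ℚ) : ℝ) ^ 2 =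
                (pm (vec Q') * ((nm (ct Q) : ℚ) : ℝ) ^ 2) * ((nm (ct P) : ℚ) : ℝ) ^ 2 := by ring
            _ ≤ (pm (vec Q) * ((nm (ct Q') : ℚ) : ℝ) ^ 2) * ((nm (ct P) : ℚ) : ℝ) ^ 2 := by
                gcongr
            _ = (pm (vec Q) * ((nm (ct P) : ℚ) : ℝ) ^ 2) * ((nm (ct Q') : ℚ) : ℝ) ^ 2 := by ring
            _ ≤ (pm (vec P) * ((nm (ct Q) : ℚ) : ℝ) ^ 2) * ((nm (ct Q') : ℚ) : ℝ) ^ 2 := by
                gcongr
            _ = _ := by ring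
        exact le_of_mul_le_mul_right h4 hQQ

/-- DESC -/
theorem desc (h : S_HB K) : S_DESC K := by
  intro hodd hn P hP
  obtain ⟨c, hc, hcb⟩ := h hodd hn
  have hP0 : (0 : ℝ) < ((nm (ct P) : ℚ) : ℝ) := by
    exact_mod_cast nm_pos (ct_ne (hP.ind (by omega)).fst)
  obtain ⟨N, hN⟩ := pow_unbounded_of_one_lt (pm (vec P) / (c * ((nm (ct P) : ℚ) : ℝ) ^ 2))
    (one_lt_two : (1 : ℝ) < 2)
  refine desc_aux K hodd hn hc hcb N P hP ?_
  rwa [div_lt_iff₀ (by positivity)] at hN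

end

end Pool.Agent.Y604.KF
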