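import Pool.Agent.Y714.KF.Stm

set_option autoImplicit false
set_option linter.unusedSectionVars false

/-! HB: the height of a pair is bounded below. -/

namespace Pool.Agent.Y604.KF

open NumberField FractionalIdeal Module Finset Pool.Agent.Y714.KF
open scoped nonZeroDivisors

section

variable (K : Type) [Field K] [NumberField K]

theorem sp_one' : sp (1 : K) = 1 := by
  rw [sp, spanSingleton_one]

/-- the bound for the pairs with a given content -/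
theorem hb_one (hodd : Odd (finrank ℚ K)) (hn : 3 ≤ finrank ℚ K) (r : (FI K)ˣ) :
    ∃ c : ℝ, 0 < c ∧ ∀ P : K × K, Nd P → ct P = (r : FI K) →
      c * ((nm (r : FI K) : ℚ) : ℝ) ^ 2 ≤ pm (vec P) := by
  obtain ⟨C, hC, hin⟩ := ineqs (J := K →+* ℂ) (by rw [card_emb]; exact hodd)
  obtain ⟨c, hc, hidx⟩ := exists_index r
  have hr : (r : FI K) ≠ 0 := r.ne_zero
  have hnm : (0 : ℝ) < ((nm (r : FI K) : ℚ) : ℝ) := by exact_mod_cast nm_pos hr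
  refine ⟨min 1 (c ^ 2 / C) / ((nm (r : FI K) : ℚ) : ℝ) ^ 2, by positivity, fun P hP hct => ?_⟩
  rw [div_mul_cancel₀ _ (by positivity)]
  have hpm : 0 < pm (vec P) := hP.pm_pos (by omega)
  obtain ⟨D, hD, hprod, -⟩ := hidx P hct.le hP
  have h4 := (hin (vec P) hpm).2.2.2
  rw [hprod, card_emb] at h4
  have hD1 : (1 : ℝ) ≤ D := by exact_mod_cast Nat.one_le_iff_ne_zero.2 hD
  have h5 : c ^ 2 ≤ (c * D) ^ 2 := by
    rw [mul_pow]
    have : (1 : ℝ) ≤ (D : ℝ) ^ 2 := one_le_pow₀ hD1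
    nlinarith [sq_nonneg c]
  have h6 : c ^ 2 / C ≤ pm (vec P) ^ (finrank ℚ K - 1) := by
    rw [div_le_iff₀ hC]
    linarith [h5.trans h4, mul_comm C (pm (vec P) ^ (finrank ℚ K - 1))]
  rcases le_or_gt 1 (pm (vec P)) with h7 | h7
  · exact (min_le_left _ _).trans h7
  · refine (min_le_right _ _).trans (h6.trans ?_)
    calc pm (vec P) ^ (finrank ℚ K - 1) ≤ pm (vec P) ^ 1 :=
          pow_le_pow_of_le_one hpm.le h7.le (by omega)
      _ = pm (vec P) := pow_one _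

/-- HB -/
theorem hb (h : S_CLS K) : S_HB K := by
  intro hodd hn
  obtain ⟨R, hR, -⟩ := h
  choose cr hcr hcr' using hb_one K hodd hn
  have hne : R.Nonempty := by
    obtain ⟨r, hr, -⟩ := hR 1
    exact ⟨r, hr⟩
  refine ⟨R.inf' hne cr, (Finset.lt_inf'_iff _).2 fun r _ => hcr r, fun P hP => ?_⟩
  have hP1 : P.1 ≠ 0 := (hP.ind (by omega)).fst
  obtain ⟨r, hr, x, hx, hxr⟩ := hR (Units.mk0 (ct P) (ct_ne hP1))
  rw [Units.val_mk0] at hxr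
  have hx' : x⁻¹ ≠ 0 := inv_ne_zero hx
  have hct : ct (x⁻¹ • P) = (r : FI K) := by
    rw [ct_smul, hxr, ← mul_assoc, ← sp_mul, inv_mul_cancel₀ hx, sp_one', one_mul]
  have h1 := hcr' r (x⁻¹ • P) (hP.smul hx') hct
  have h2 : P = x • (x⁻¹ • P) := by rw [smul_smul, mul_inv_cancel₀ hx, one_smul]
  have h3 : pm (vec P) = ((nm (sp x) : ℚ) : ℝ) ^ 2 * pm (vec (x⁻¹ • P)) := by
    conv_lhs => rw [h2]
    exact pm_vec_smul x _
  have h4 : ((nm (ct P) : ℚ) : ℝ) = ((nm (sp x) : ℚ) : ℝ) * ((nm (r : FI K) : ℚ) : ℝ) := by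
    rw [hxr, nm, map_mul]
    push_cast
    rfl
  have h5 : R.inf' hne cr ≤ cr r := Finset.inf'_le _ hr
  rw [h3, h4, mul_pow]
  have h6 : (0 : ℝ) ≤ ((nm (sp x) : ℚ) : ℝ) ^ 2 := sq_nonneg _
  have h7 : (0 : ℝ) ≤ ((nm (r : FI K) : ℚ) : ℝ) ^ 2 := sq_nonneg _
  calc R.inf' hne cr * (((nm (sp x) : ℚ) : ℝ) ^ 2 * ((nm (r : FI K) : ℚ) : ℝ) ^ 2) =
        ((nm (sp x) : ℚ) : ℝ) ^ 2 * (R.inf' hne cr * ((nm (r : FI K) : ℚ) : ℝ) ^ 2) := by ring
    _ ≤ ((nm (sp x) : ℚ) : ℝ) ^ 2 * (cr r * ((nm (r : FI K) : ℚ) : ℝ) ^ 2) := by gcongr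
    _ ≤ ((nm (sp x) : ℚ) : ℝ) ^ 2 * pm (vec (x⁻¹ • P)) := by gcongr

end

end Pool.Agent.Y604.KF
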